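import Pool.Agent.Lib.MP_c7af3c_ag.GEN.Y.Base

/-! Module LINY. -/

set_option autoImplicit false

namespace Pool.Agent.Gen.Y.H26

open MvPolynomial Pool.Agent.Gen Pool.Agent.Gen.Y

variable {L : Type} [Field L] {N M c : ℕ} {d : Fin c → ℕ} (S : SysY L N M c d)

theorem hom_XI {m : Fin c} {I : Fin (M + 1) →₀ ℕ} (hI : I.degree + 1 = d m) (i : Fin (M + 1)) :
    (X i * monomial I (1 : L)).IsHomogeneous (d m) := by
  have h := (isHomogeneous_X L i).mul (isHomogeneous_monomial (1 : L) (rfl : I.degree = I.degree))
  have h1 : 1 + I.degree = d m := by omega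
  rwa [h1] at h

theorem hom_Xpow (m : Fin c) (i : Fin (M + 1)) :
    (X i ^ d m : MvPolynomial (Fin (M + 1)) L).IsHomogeneous (d m) := by
  simpa using isHomogeneous_X_pow i (d m)

/-- the admissible indices of `Z` columns -/
def Ok (d : Fin c → ℕ) (q : Fin c × Fin (M + 1) × Fin (M + 1) × (Fin (M + 1) →₀ ℕ)) : Prop :=
  q.2.2.2.degree + 1 = d q.1

theorem ell_Z {q : Fin c × Fin (M + 1) × Fin (M + 1) × (Fin (M + 1) →₀ ℕ)} (hq : Ok d q)
    (m' : Fin c) : S.ell m' (S.Z q) = 0 := by
  unfold SysY.Z
  rw [map_sub, map_smul, map_smul, S.rel _ _ _ (hom_XI hq _), S.rel _ _ _ (hom_XI hq _)]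
  by_cases h : q.1 = m'
  · rw [if_pos h, if_pos h]
    simp only [map_mul, eval_X, smul_eq_mul]
    ring
  · rw [if_neg h, if_neg h, smul_zero, smul_zero, sub_zero]

/-- the span of `x` and the `Z` columns -/
noncomputable def KK : Submodule L (Fin (N + 1) → L) :=
  Submodule.span L (insert S.x (S.Z '' {q | Ok d q}))

theorem x_mem : S.x ∈ KK S := Submodule.subset_span (Set.mem_insert _ _)

theorem Z_mem {q : Fin c × Fin (M + 1) × Fin (M + 1) × (Fin (M + 1) →₀ ℕ)} (hq : Ok d q) :
    S.Z q ∈ KK S := Submodule.subset_span (Set.mem_insert_of_mem _ ⟨q, hq, rfl⟩)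

theorem KK_le (m' : Fin c) : KK S ≤ LinearMap.ker (S.ell m') := by
  rw [KK, Submodule.span_le]
  intro u hu
  rcases hu with rfl | ⟨q, hq, rfl⟩
  · exact S.ell_x m'
  · exact ell_Z S hq m'

theorem prod_map_X (t : Multiset (Fin (M + 1))) :
    (t.map (X : Fin (M + 1) → MvPolynomial (Fin (M + 1)) L)).prod =
      monomial (Multiset.toFinsupp t) 1 := by
  induction t using Multiset.induction_on with
  | empty => simp
  | cons a t iht =>
    rw [Multiset.map_cons, Multiset.prod_cons, iht, X, monomial_mul, one_mul]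
    congr 1
    rw [← Multiset.singleton_add, map_add, Multiset.toFinsupp_singleton]

theorem degree_toFinsupp (s : Multiset (Fin (M + 1))) :
    (Multiset.toFinsupp s).degree = s.card := by
  rw [Finsupp.degree_eq_sum]
  have := Multiset.toFinsupp_sum_eq s
  rw [Finsupp.sum] at this
  rw [← this]
  refine (Finset.sum_subset (Finset.subset_univ _) fun x _ hx => ?_).symm
  simpa using hx

theorem key_mono (m : Fin c) (j : Fin (M + 1)) (s : Multiset (Fin (M + 1))) : ∀ b : ℕ,
    s.card + b = d m →
    S.y j ^ s.card • S.V m ((s.map X).prod * X j ^ b) -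
      eval S.y ((s.map X).prod) • S.V m (X j ^ d m) ∈ KK S := by
  induction s using Multiset.induction_on with
  | empty =>
    intro b hb
    simp only [Multiset.card_zero, zero_add] at hb
    simp [hb]
  | cons i s ih =>
    intro b hb
    rw [Multiset.card_cons] at hb
    have hI : (s.map (X : Fin (M + 1) → MvPolynomial (Fin (M + 1)) L)).prod * X j ^ b =
        monomial (Multiset.toFinsupp s + Finsupp.single j b) 1 := by
      rw [prod_map_X, X_pow_eq_monomial, monomial_mul, one_mul]
    have hdeg : (Multiset.toFinsupp s + Finsupp.single j b).degree + 1 = d m := by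
      rw [map_add, degree_toFinsupp, Finsupp.degree_single]
      omega
    have hZ : S.Z (m, i, j, Multiset.toFinsupp s + Finsupp.single j b) ∈ KK S :=
      Z_mem S (q := (m, i, j, Multiset.toFinsupp s + Finsupp.single j b)) hdeg
    change S.y j • S.V m (X i * monomial _ 1) - S.y i • S.V m (X j * monomial _ 1) ∈ KK S at hZ
    rw [← hI] at hZ
    have h3 := ih (b + 1) (by omega)
    have h4 : X j * ((s.map (X : Fin (M + 1) → MvPolynomial (Fin (M + 1)) L)).prod * X j ^ b) =
        (s.map X).prod * X j ^ (b + 1) := by ring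
    rw [h4] at hZ
    have h5 := (KK S).add_mem ((KK S).smul_mem (S.y j ^ s.card) hZ) ((KK S).smul_mem (S.y i) h3)
    rw [Multiset.map_cons, Multiset.prod_cons, Multiset.card_cons, map_mul (eval S.y), eval_X,
      mul_assoc (X i)]
    convert h5 using 1
    module

theorem key_hom (m : Fin c) (j : Fin (M + 1)) {G : MvPolynomial (Fin (M + 1)) L}
    (hG : G.IsHomogeneous (d m)) :
    S.y j ^ d m • S.V m G - eval S.y G • S.V m (X j ^ d m) ∈ KK S := by
  have hmono : ∀ I : Fin (M + 1) →₀ ℕ, I.degree = d m →
      S.y j ^ d m • S.V m (monomial I 1) -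
        eval S.y (monomial I (1 : L)) • S.V m (X j ^ d m) ∈ KK S := by
    intro I hI
    have hc : (Finsupp.toMultiset I).card = d m := by
      rw [← degree_toFinsupp, Finsupp.toMultiset_toFinsupp, hI]
    have h1 := key_mono S m j (Finsupp.toMultiset I) 0 (by rw [add_zero, hc])
    rw [prod_map_X, Finsupp.toMultiset_toFinsupp, hc, pow_zero, mul_one] at h1
    exact h1
  have hsum : S.y j ^ d m • S.V m G - eval S.y G • S.V m (X j ^ d m) =
      ∑ I ∈ G.support, coeff I G • (S.y j ^ d m • S.V m (monomial I 1) -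
        eval S.y (monomial I (1 : L)) • S.V m (X j ^ d m)) := by
    have e1 : S.V m G = ∑ I ∈ G.support, coeff I G • S.V m (monomial I 1) := by
      conv_lhs => rw [G.as_sum]
      rw [map_sum]
      refine Finset.sum_congr rfl fun I _ => ?_
      rw [← map_smul, smul_monomial, smul_eq_mul, mul_one]
    have e2 : eval S.y G = ∑ I ∈ G.support, coeff I G * eval S.y (monomial I (1 : L)) := by
      conv_lhs => rw [G.as_sum]
      rw [map_sum]
      refine Finset.sum_congr rfl fun I _ => ?_
      rw [eval_monomial, eval_monomial, one_mul]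
    rw [e1, e2, Finset.smul_sum, Finset.sum_smul, ← Finset.sum_sub_distrib]
    refine Finset.sum_congr rfl fun I _ => ?_
    module
  rw [hsum]
  refine (KK S).sum_mem fun I hI => (KK S).smul_mem _ (hmono I ?_)
  by_contra h1
  exact mem_support_iff.1 hI (hG.coeff_eq_zero h1)

theorem pow_mem (m : Fin c) (i j : Fin (M + 1)) (hj : S.y j ≠ 0) :
    S.V m (X i ^ d m) - (S.y i / S.y j) ^ d m • S.V m (X j ^ d m) ∈ KK S := by
  have h := key_hom S m j (hom_Xpow m i)
  have h2 : S.y j ^ d m ≠ 0 := pow_ne_zero _ hj
  have h3 := (KK S).smul_mem (S.y j ^ d m)⁻¹ h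
  rw [smul_sub, smul_smul, smul_smul, inv_mul_cancel₀ h2, one_smul, map_pow (eval S.y), eval_X] at h3
  rw [div_pow, div_eq_inv_mul]
  exact h3

/-- the space `T` is the sum of `K` and the span of the `U` columns -/
theorem T_eq (j : Fin (M + 1)) (hj : S.y j ≠ 0) :
    S.T = KK S ⊔ Submodule.span L (Set.range fun m => S.V m (X j ^ d m)) := by
  apply le_antisymm
  · rw [SysY.T, Submodule.span_le]
    intro u hu
    rcases hu with rfl | ⟨m, G, hG, rfl⟩
    · exact Submodule.mem_sup_left (x_mem S)
    · have h := key_hom S m j hG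
      have h2 : S.y j ^ d m ≠ 0 := pow_ne_zero _ hj
      have h3 := (KK S).smul_mem (S.y j ^ d m)⁻¹ h
      rw [smul_sub, smul_smul, smul_smul, inv_mul_cancel₀ h2, one_smul] at h3
      have h4 : S.V m G = (S.V m G - ((S.y j ^ d m)⁻¹ * eval S.y G) • S.V m (X j ^ d m)) +
          ((S.y j ^ d m)⁻¹ * eval S.y G) • S.V m (X j ^ d m) := by abel
      rw [SetLike.mem_coe, h4]
      exact Submodule.add_mem_sup h3 (Submodule.smul_mem _ _ (Submodule.subset_span ⟨m, rfl⟩))
  · rw [sup_le_iff]
    constructor
    · rw [KK, Submodule.span_le]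
      intro u hu
      rcases hu with rfl | ⟨q, hq, rfl⟩
      · exact Submodule.subset_span (Set.mem_insert _ _)
      · refine Submodule.sub_mem _ (Submodule.smul_mem _ _ ?_) (Submodule.smul_mem _ _ ?_)
        · exact Submodule.subset_span (Set.mem_insert_of_mem _ ⟨_, _, hom_XI hq _, rfl⟩)
        · exact Submodule.subset_span (Set.mem_insert_of_mem _ ⟨_, _, hom_XI hq _, rfl⟩)
    · rw [Submodule.span_le]
      rintro _ ⟨m, rfl⟩
      exact Submodule.subset_span (Set.mem_insert_of_mem _ ⟨_, _, hom_Xpow m j, rfl⟩)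

/-- a maximal minor -/
theorem exists_minor {ι κ : Type} [Fintype ι] [DecidableEq ι] [Fintype κ] (w : ι → κ → L)
    (hw : LinearIndependent L w) :
    ∃ R : ι → κ, Matrix.det (Matrix.of fun a k => w k (R a)) ≠ 0 := by
  classical
  -- the rows span
  let row : κ → ι → L := fun a k => w k a
  have hspan : Submodule.span L (Set.range row) = ⊤ := by
    by_contra hne
    obtain ⟨l, hl0, hl⟩ := Submodule.exists_le_ker_of_lt_top _ (lt_top_iff_ne_top.2 hne)
    apply hl0
    have h1 : ∀ a, ∑ k, l (Pi.single k 1) * w k a = 0 := by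
      intro a
      have h2 : l (row a) = 0 := hl (Submodule.subset_span ⟨a, rfl⟩)
      have h3 : row a = ∑ k, w k a • Pi.single k (1 : L) := by
        funext k'
        simp [row, Finset.sum_apply, Pi.single_apply]
      rw [h3, map_sum] at h2
      rw [← h2]
      refine Finset.sum_congr rfl fun k _ => ?_
      rw [map_smul, smul_eq_mul, mul_comm]
    have h4 : ∑ k, l (Pi.single k 1) • w k = 0 := by
      funext a
      rw [Finset.sum_apply]
      simpa using h1 a
    have h5 := Fintype.linearIndependent_iff.1 hw _ h4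
    refine LinearMap.pi_ext' fun k => ?_
    refine LinearMap.ext_ring ?_
    simpa using h5 k
  obtain ⟨b, -, -, hb, hli⟩ := exists_linearIndepOn_extension (K := L) (v := row)
    (s := (∅ : Set κ)) (t := Set.univ) (linearIndepOn_empty L row) (Set.subset_univ _)
  have hli' : LinearIndependent L fun x : b => row x.1 := hli
  have hTb : Submodule.span L (Set.range fun x : b => row x.1) = ⊤ := by
    rw [eq_top_iff, ← hspan, Submodule.span_le]
    have hr : (Set.range fun x : b => row x.1) = row '' b := by
      ext y; simp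
    rw [hr, ← Set.image_univ]
    exact hb
  have hfb : Finite b := inferInstance
  have : Fintype b := Fintype.ofFinite b
  have hcard : Fintype.card b = Fintype.card ι := by
    have h1 := finrank_span_eq_card hli'
    rw [hTb, finrank_top, Module.finrank_fintype_fun_eq_card] at h1
    exact h1.symm
  let e : ι ≃ b := Fintype.equivOfCardEq hcard.symm
  refine ⟨fun a => (e a).1, ?_⟩
  have h2 : LinearIndependent L (Matrix.of fun a k => w k (e a).1 : Matrix ι ι L).row := by
    have := hli'.comp e e.injective
    exact this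
  rw [Matrix.linearIndependent_rows_iff_isUnit, Matrix.isUnit_iff_isUnit_det] at h2
  exact h2.ne_zero

theorem linY : LinYStatement := by
  intro L _ N M c n d S hrank
  classical
  obtain ⟨j, hj⟩ : ∃ j, S.y j ≠ 0 := Function.ne_iff.1 S.y_ne
  -- a basis of `K` out of `x` and the `Z` columns
  let Q : Type := Option {q : Fin c × Fin (M + 1) × Fin (M + 1) × (Fin (M + 1) →₀ ℕ) // Ok d q}
  let vv : Q → (Fin (N + 1) → L) := fun o => o.elim S.x (fun q => S.Z q.1)
  obtain ⟨b, hbt, hsb, hspan, hli⟩ := exists_linearIndepOn_extension (K := L) (v := vv)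
    (s := {(none : Q)}) (t := Set.univ)
    (by rw [linearIndepOn_singleton_iff]; exact S.x_ne) (Set.subset_univ _)
  have hli' : LinearIndependent L fun x : b => vv x.1 := hli
  have hrangevv : Set.range vv = insert S.x (S.Z '' {q | Ok d q}) := by
    ext u
    constructor
    · rintro ⟨o, rfl⟩
      cases o with
      | none => exact Set.mem_insert _ _
      | some q => exact Set.mem_insert_of_mem _ ⟨q.1, q.2, rfl⟩
    · intro hu
      rcases hu with rfl | ⟨q, hq, rfl⟩
      · exact ⟨none, rfl⟩
      · exact ⟨some ⟨q, hq⟩, rfl⟩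
  have hTb : Submodule.span L (Set.range fun x : b => vv x.1) = KK S := by
    have hr : (Set.range fun x : b => vv x.1) = vv '' b := by
      ext y; simp
    rw [hr]
    refine le_antisymm ?_ ?_
    · rw [KK, ← hrangevv]
      exact Submodule.span_mono (Set.image_subset_range _ _)
    · rw [KK, ← hrangevv, Submodule.span_le, ← Set.image_univ]
      exact hspan
  have hfb : Finite b := hli'.finite
  have : Fintype b := Fintype.ofFinite b
  have hnb : (none : Q) ∈ b := hsb rfl
  -- split off `none`
  let b' : Type := {x : b // x ≠ ⟨none, hnb⟩}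
  let z : ℕ := Fintype.card b'
  let e' : Fin z ≃ b' := (Fintype.equivFin b').symm
  have hsome : ∀ x : b', ∃ q : {q : Fin c × Fin (M + 1) × Fin (M + 1) × (Fin (M + 1) →₀ ℕ) //
      Ok d q}, x.1.1 = some q := by
    intro x
    cases hx : x.1.1 with
    | none => exact absurd (Subtype.ext hx) x.2
    | some q => exact ⟨q, rfl⟩
  choose qq hqq using hsome
  let q : Fin z → Fin c × Fin (M + 1) × Fin (M + 1) × (Fin (M + 1) →₀ ℕ) := fun a => (qq (e' a)).1
  have hq : ∀ a, Ok d (q a) := fun a => (qq (e' a)).2
  let f : Unit ⊕ Fin z → b := Sum.elim (fun _ => ⟨none, hnb⟩) (fun a => (e' a).1)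
  have hfinj : Function.Injective f := by
    rintro (u | a) (u' | a') h
    · rfl
    · exact absurd h.symm (e' a').2
    · exact absurd h (e' a).2
    · have h1 : (e' a).1 = (e' a').1 := h
      rw [e'.injective (Subtype.ext h1)]
  have hfsurj : Function.Surjective f := by
    intro x
    by_cases hx : x = ⟨none, hnb⟩
    · exact ⟨Sum.inl (), hx.symm⟩
    · refine ⟨Sum.inr (e'.symm ⟨x, hx⟩), ?_⟩
      change (e' (e'.symm ⟨x, hx⟩)).1 = x
      rw [Equiv.apply_symm_apply]
  have hfv : ∀ k, vv (f k).1 = Sum.elim (fun _ => S.x) (fun a => S.Z (q a)) k := by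
    rintro (u | a)
    · rfl
    · change vv (e' a).1.1 = _
      rw [hqq (e' a)]
      rfl
  let g0 : Unit ⊕ Fin z → (Fin (N + 1) → L) := Sum.elim (fun _ => S.x) (fun a => S.Z (q a))
  have hg0 : LinearIndependent L g0 := by
    have h1 := hli'.comp f hfinj
    have h2 : (fun x : b => vv x.1) ∘ f = g0 := by
      funext k; exact hfv k
    rwa [h2] at h1
  have hg0span : Submodule.span L (Set.range g0) = KK S := by
    rw [← hTb]
    congr 1
    have h2 : g0 = (fun x : b => vv x.1) ∘ f := by
      funext k; exact (hfv k).symm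
    rw [h2, hfsurj.range_comp]
  have hgK : ∀ k, g0 k ∈ KK S := fun k => by rw [← hg0span]; exact Submodule.subset_span ⟨k, rfl⟩
  -- all columns are independent
  have hcolli : LinearIndependent L (S.col q j) := by
    rw [Fintype.linearIndependent_iff]
    intro g hg
    rw [Fintype.sum_sum_type] at hg
    have e1 : ∀ b, S.col q j (Sum.inl b) = g0 b := fun b => rfl
    have e2 : ∀ m, S.col q j (Sum.inr m) = S.V m (X j ^ d m) := fun m => rfl
    simp only [e1, e2] at hg
    have h2 : ∀ m, g (Sum.inr m) = 0 := by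
      intro m
      have h0 := congrArg (S.ell m) hg
      rw [map_add, map_sum, map_sum, map_zero, Finset.sum_eq_zero (fun b _ => by
        rw [map_smul, (KK_le S m (hgK b) : S.ell m (g0 b) = 0), smul_zero]), zero_add,
        Finset.sum_eq_single m (fun m' _ hm => by
          rw [map_smul, S.rel _ _ _ (hom_Xpow m' j), if_neg hm, smul_zero])
          (fun h => absurd (Finset.mem_univ _) h),
        map_smul, S.rel _ _ _ (hom_Xpow m j), if_pos rfl, map_pow, eval_X, smul_eq_mul, mul_neg,
        neg_eq_zero, mul_eq_zero] at h0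
      exact h0.resolve_right (pow_ne_zero _ hj)
    simp only [h2, zero_smul, Finset.sum_const_zero, add_zero] at hg
    have h4 := Fintype.linearIndependent_iff.1 hg0 _ hg
    intro k
    cases k with
    | inl b => exact h4 b
    | inr m => exact h2 m
  -- the dimension
  have hcolT : Submodule.span L (Set.range (S.col q j)) ≤ S.T := by
    rw [Submodule.span_le, T_eq S j hj]
    rintro _ ⟨k, rfl⟩
    cases k with
    | inl b => exact Submodule.mem_sup_left (hgK b)
    | inr m => exact Submodule.mem_sup_right (Submodule.subset_span ⟨m, rfl⟩)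
  have hdim : z + c ≤ n := by
    have h1 := finrank_span_eq_card hcolli
    have h2 := Submodule.finrank_mono hcolT
    rw [h1] at h2
    simp only [Fintype.card_sum, Fintype.card_fin, Fintype.card_unit] at h2
    omega
  obtain ⟨R, hR⟩ := exists_minor (S.col q j) hcolli
  refine ⟨z, q, R, Matrix.det (Matrix.of fun a k => S.col q j k (R a)) / S.y j ^ (∑ m, d m), hdim,
    hq, div_ne_zero hR (pow_ne_zero _ hj), fun i => ?_⟩
  -- change of the `U` columns
  have h1 : ∀ m : Fin c, ∃ r : Unit ⊕ Fin z → L, S.V m (X i ^ d m) =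
      (S.y i / S.y j) ^ d m • S.V m (X j ^ d m) + ∑ b, r b • g0 b := by
    intro m
    have hk := pow_mem S m i j hj
    rw [← hg0span] at hk
    obtain ⟨r, hr⟩ := (Submodule.mem_span_range_iff_exists_fun L).1 hk
    exact ⟨r, by rw [hr]; abel⟩
  choose r hr using h1
  have hmul : (Matrix.of fun a k => S.col q i k (R a)) =
      (Matrix.of fun a k => S.col q j k (R a)) *
        Matrix.fromBlocks 1 (Matrix.of fun b m => r m b) 0
          (Matrix.diagonal fun m => (S.y i / S.y j) ^ d m) := by
    ext a k
    rw [Matrix.mul_apply, Fintype.sum_sum_type]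
    cases k with
    | inl b =>
      simp only [Matrix.fromBlocks_apply₁₁, Matrix.fromBlocks_apply₂₁, Matrix.zero_apply, mul_zero,
        Finset.sum_const_zero, add_zero, Matrix.one_apply, mul_ite, mul_one]
      rw [Finset.sum_ite_eq' Finset.univ b]
      simp only [Finset.mem_univ, if_true, Matrix.of_apply]
      rfl
    | inr m =>
      simp only [Matrix.fromBlocks_apply₁₂, Matrix.fromBlocks_apply₂₂, Matrix.of_apply,
        Matrix.diagonal_apply, mul_ite, mul_zero]
      rw [Finset.sum_ite_eq' Finset.univ m]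
      simp only [Finset.mem_univ, if_true]
      have h2 := congrFun (hr m) (R a)
      change S.V m (X i ^ d m) (R a) = _ + S.V m (X j ^ d m) (R a) * _
      rw [h2]
      simp only [Pi.add_apply, Pi.smul_apply, smul_eq_mul, Finset.sum_apply]
      rw [add_comm, mul_comm ((S.y i / S.y j) ^ d m)]
      congr 1
      refine Finset.sum_congr rfl fun b _ => ?_
      rw [mul_comm]
      rfl
  rw [hmul, Matrix.det_mul, Matrix.det_fromBlocks_zero₂₁, Matrix.det_one, one_mul,
    Matrix.det_diagonal, Finset.prod_pow_eq_pow_sum, div_pow]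
  ring

end Pool.Agent.Gen.Y.H26
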